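import Pool.Agent.H986.EV.PM

/-!
A set of curves which is closed under the symmetries of the square lattice and under splicing
contains, unless all its curves are constant, a curve all whose neighbours cross themselves.
-/

set_option autoImplicit false

namespace Pool.Agent.H986.EV

open unitInterval

/-- the curve as a function on `ℝ`, constant outside of `[0, 1]` -/
noncomputable def ev (γ : C(unitInterval, ℂ)) (x : ℝ) : ℂ := γ (Set.projIcc 0 1 zero_le_one x)

@[fun_prop]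
theorem ev_cont (γ : C(unitInterval, ℂ)) : Continuous (ev γ) := by
  unfold ev
  exact γ.continuous.comp continuous_projIcc

theorem ev_of_mem (γ : C(unitInterval, ℂ)) {x : ℝ} (hx : x ∈ Set.Icc (0 : ℝ) 1) :
    ev γ x = γ ⟨x, hx⟩ := by
  unfold ev
  rw [Set.projIcc_of_mem]

theorem ev_coe (γ : C(unitInterval, ℂ)) (s : unitInterval) : ev γ s = γ s := by
  rw [ev_of_mem γ s.2]

theorem ev_sub_le (γ γ' : C(unitInterval, ℂ)) (x : ℝ) : ‖ev γ x - ev γ' x‖ ≤ ‖γ - γ'‖ := by
  unfold ev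
  rw [← ContinuousMap.sub_apply]
  exact ContinuousMap.norm_coe_le_norm _ _

/-- follow `γ` up to time `τ`, and then the increments of `γ'` -/
noncomputable def splice (τ : ℝ) (γ γ' : C(unitInterval, ℂ)) : C(unitInterval, ℂ) where
  toFun s := ev γ (min s τ) + (ev γ' (max s τ) - ev γ' τ)
  continuous_toFun := by fun_prop

theorem splice_ev (τ : ℝ) (γ γ' : C(unitInterval, ℂ)) {x : ℝ} (hx : x ∈ Set.Icc (0 : ℝ) 1) :
    ev (splice τ γ γ') x = ev γ (min x τ) + (ev γ' (max x τ) - ev γ' τ) := by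
  rw [ev_of_mem _ hx]
  rfl

/-- the symmetries of the square: reflection if `c`, and then `k` quarter turns -/
noncomputable def act (c : Bool) (k : ℕ) (z : ℂ) : ℂ :=
  Complex.I ^ k * (if c then (starRingEnd ℂ) z else z)

theorem act_sub (c : Bool) (k : ℕ) (z w : ℂ) : act c k (z - w) = act c k z - act c k w := by
  unfold act
  cases c <;> simp [mul_sub]

theorem act_norm (c : Bool) (k : ℕ) (z : ℂ) : ‖act c k z‖ = ‖z‖ := by
  unfold act
  cases c <;> simp

/-- the symmetries acting on curves -/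
noncomputable def cact (c : Bool) (k : ℕ) (γ : C(unitInterval, ℂ)) : C(unitInterval, ℂ) :=
  Complex.I ^ k • (if c then star γ else γ)

theorem cact_ev (c : Bool) (k : ℕ) (γ : C(unitInterval, ℂ)) (x : ℝ) :
    ev (cact c k γ) x = act c k (ev γ x) := by
  unfold cact ev act
  cases c <;> simp

theorem cact_mem {S : Set C(unitInterval, ℂ)} (hrot : ∀ γ ∈ S, Complex.I • γ ∈ S)
    (hconj : ∀ γ ∈ S, star γ ∈ S) (c : Bool) (k : ℕ) {γ : C(unitInterval, ℂ)} (hγ : γ ∈ S) :
    cact c k γ ∈ S := by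
  unfold cact
  induction k with
  | zero =>
    cases c
    · simpa using hγ
    · simpa using hconj γ hγ
  | succ k ih =>
    rw [pow_succ', mul_smul]
    exact hrot _ ih

/-- the sup norm on the plane -/
noncomputable def sn (z : ℂ) : ℝ := max |z.re| |z.im|

theorem sn_nonneg (z : ℂ) : 0 ≤ sn z := le_trans (abs_nonneg _) (le_max_left _ _)

theorem sn_add (z w : ℂ) : sn (z + w) ≤ sn z + sn w := by
  unfold sn
  refine max_le ?_ ?_
  · rw [Complex.add_re]
    exact (abs_add_le _ _).trans (add_le_add (le_max_left _ _) (le_max_left _ _))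
  · rw [Complex.add_im]
    exact (abs_add_le _ _).trans (add_le_add (le_max_right _ _) (le_max_right _ _))

theorem sn_le_norm (z : ℂ) : sn z ≤ ‖z‖ :=
  max_le (Complex.abs_re_le_norm z) (Complex.abs_im_le_norm z)

theorem sn_pos {z : ℂ} (h : z ≠ 0) : 0 < sn z := by
  rcases lt_or_eq_of_le (sn_nonneg z) with h1 | h1
  · exact h1
  exfalso
  apply h
  have h2 : |z.re| ≤ 0 := by rw [h1]; exact le_max_left _ _
  have h3 : |z.im| ≤ 0 := by rw [h1]; exact le_max_right _ _
  exact Complex.ext (abs_nonpos_iff.1 h2) (abs_nonpos_iff.1 h3)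

/-- a symmetry which turns a vector to the east, with the small coordinate of any sign -/
theorem east (d : ℂ) : ∃ b : ℝ, |b| ≤ sn d ∧
    (∃ c k, act c k d = sn d + b * Complex.I) ∧ (∃ c k, act c k d = sn d - b * Complex.I) := by
  obtain ⟨x, y⟩ := d
  rcases le_or_gt |y| |x| with h | h
  · have e : sn ⟨x, y⟩ = |x| := max_eq_left h
    rw [e]
    rcases le_total 0 x with hx | hx
    · rw [abs_of_nonneg hx] at h ⊢
      refine ⟨y, h, ⟨false, 0, ?_⟩, ⟨true, 0, ?_⟩⟩ <;>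
        apply Complex.ext <;> simp [act]
    · rw [abs_of_nonpos hx] at h ⊢
      refine ⟨y, h, ⟨true, 2, ?_⟩, ⟨false, 2, ?_⟩⟩ <;>
        apply Complex.ext <;> simp [act, pow_succ]
  · have e : sn ⟨x, y⟩ = |y| := max_eq_right h.le
    rw [e]
    rcases le_total 0 y with hy | hy
    · rw [abs_of_nonneg hy] at h ⊢
      refine ⟨x, h.le, ⟨true, 1, ?_⟩, ⟨false, 3, ?_⟩⟩ <;>
        apply Complex.ext <;> simp [act, pow_succ]
    · rw [abs_of_nonpos hy] at h ⊢
      refine ⟨x, h.le, ⟨false, 1, ?_⟩, ⟨true, 3, ?_⟩⟩ <;>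
        apply Complex.ext <;> simp [act, pow_succ]

theorem act_pow (c : Bool) (k h : ℕ) (z : ℂ) : act c (h + k) z = Complex.I ^ h * act c k z := by
  unfold act
  rw [pow_add, mul_assoc]

theorem sign_choice {ρ E b : ℝ} (hE : |E| ≤ ρ) (hb : |b| ≤ ρ) : |E + b| ≤ ρ ∨ |E - b| ≤ ρ := by
  rw [abs_le] at hE hb
  rcases le_total 0 E with h | h <;> rcases le_total 0 b with h' | h'
  · right; rw [abs_le]; constructor <;> linarith
  · left; rw [abs_le]; constructor <;> linarith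
  · left; rw [abs_le]; constructor <;> linarith
  · right; rw [abs_le]; constructor <;> linarith

/-- steering: the error stays bounded -/
theorem steer {ρ : ℝ} {E d : ℂ} (h1 : |E.re| ≤ ρ) (h2 : |E.im| ≤ ρ) (hd : sn d ≤ ρ) (h : ℕ)
    (hh : h = 0 ∨ h = 1 ∨ h = 2 ∨ h = 3) :
    ∃ c k, |(E + act c k d - Complex.I ^ h * sn d).re| ≤ ρ ∧
      |(E + act c k d - Complex.I ^ h * sn d).im| ≤ ρ := by
  obtain ⟨b, hb, ⟨c, k, e⟩, ⟨c', k', e'⟩⟩ := east d
  have hb' := hb.trans hd
  rcases hh with rfl | rfl | rfl | rfl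
  · rcases sign_choice h2 hb' with h3 | h3
    · refine ⟨c, 0 + k, ?_, ?_⟩ <;> rw [act_pow, e] <;> simp [pow_succ, h1, h3]
    · refine ⟨c', 0 + k', ?_, ?_⟩ <;> rw [act_pow, e'] <;> simp [pow_succ, h1]
      simpa [sub_eq_add_neg] using h3
  · rcases sign_choice h1 hb' with h3 | h3
    · refine ⟨c', 1 + k', ?_, ?_⟩ <;> rw [act_pow, e'] <;> simp [pow_succ, h2]
      have : E.re - -b = E.re + b := by ring
      simpa [this] using h3
    · refine ⟨c, 1 + k, ?_, ?_⟩ <;> rw [act_pow, e] <;> simp [pow_succ, h2]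
      simpa [sub_eq_add_neg] using h3
  · rcases sign_choice h2 hb' with h3 | h3
    · refine ⟨c', 2 + k', ?_, ?_⟩ <;> rw [act_pow, e'] <;> simp [pow_succ, h1]
      simpa [sub_eq_add_neg] using h3
    · refine ⟨c, 2 + k, ?_, ?_⟩ <;> rw [act_pow, e] <;> simp [pow_succ, h1]
      simpa [sub_eq_add_neg] using h3
  · rcases sign_choice h1 hb' with h3 | h3
    · refine ⟨c, 3 + k, ?_, ?_⟩ <;> rw [act_pow, e] <;> simp [pow_succ, h2]
      simpa [sub_eq_add_neg] using h3
    · refine ⟨c', 3 + k', ?_, ?_⟩ <;> rw [act_pow, e'] <;> simp [pow_succ, h2]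
      simpa [sub_eq_add_neg] using h3

/-- increments of the curve over the blocks of length `1 / m` -/
noncomputable def dd (η : C(unitInterval, ℂ)) (m i : ℕ) : ℂ :=
  ev η ((i + 1 : ℕ) / (m : ℝ)) - ev η (i / (m : ℝ))

/-- the target polygon: in the block `i` in the direction `h i` -/
noncomputable def poly (η : C(unitInterval, ℂ)) (m : ℕ) (h : ℕ → ℕ) (k : ℕ) : ℂ :=
  ∑ i ∈ Finset.range k, Complex.I ^ h i * sn (dd η m i)

theorem build {S : Set C(unitInterval, ℂ)} (hrot : ∀ γ ∈ S, Complex.I • γ ∈ S)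
    (hconj : ∀ γ ∈ S, star γ ∈ S)
    (hspl : ∀ τ ∈ Set.Ico (0 : ℝ) 1, ∀ γ ∈ S, ∀ γ' ∈ S, splice τ γ γ' ∈ S)
    {η : C(unitInterval, ℂ)} (hη : η ∈ S) (h0 : ev η 0 = 0) {m : ℕ} (hm : 1 ≤ m) {ρ : ℝ}
    (hρ : 0 ≤ ρ) (hmod : ∀ i < m, ∀ s ∈ Set.Icc (i / (m : ℝ)) ((i + 1 : ℕ) / (m : ℝ)),
      ‖ev η s - ev η (i / (m : ℝ))‖ ≤ ρ)
    (h : ℕ → ℕ) (hh : ∀ i, h i = 0 ∨ h i = 1 ∨ h i = 2 ∨ h i = 3) (k : ℕ) (hk : k ≤ m) :
    ∃ Z ∈ S, (∀ j ≤ k, |(ev Z (j / (m : ℝ)) - poly η m h j).re| ≤ ρ ∧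
        |(ev Z (j / (m : ℝ)) - poly η m h j).im| ≤ ρ) ∧
      ∀ i < k, ∀ s ∈ Set.Icc (i / (m : ℝ)) ((i + 1 : ℕ) / (m : ℝ)),
        ‖ev Z s - ev Z (i / (m : ℝ))‖ ≤ ρ := by
  have hm0 : (0 : ℝ) < m := by exact_mod_cast hm
  induction k with
  | zero =>
    refine ⟨η, hη, ?_, fun i hi => absurd hi (by omega)⟩
    intro j hj
    obtain rfl : j = 0 := by omega
    simp [poly, h0, hρ]
  | succ k ih =>
    obtain ⟨Z, hZ, hZ1, hZ2⟩ := ih (by omega)
    have hkm : k < m := by omega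
    have hmono : ∀ i j : ℕ, i ≤ j → (i : ℝ) / m ≤ (j : ℝ) / m := fun i j hij =>
      div_le_div_of_nonneg_right (by exact_mod_cast hij) hm0.le
    -- the block number `k`
    have hd : sn (dd η m k) ≤ ρ :=
      (sn_le_norm _).trans (hmod k hkm _ ⟨hmono _ _ (by omega), le_rfl⟩)
    obtain ⟨c, κ, hc1, hc2⟩ := steer (hZ1 k le_rfl).1 (hZ1 k le_rfl).2 hd (h k) (hh k)
    have hkm1 : (k : ℝ) / m < 1 := by
      rw [div_lt_one hm0]
      exact_mod_cast hkm
    have hk0 : (0 : ℝ) ≤ (k : ℝ) / m := by positivity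
    have hkm1' : ((k + 1 : ℕ) : ℝ) / m ≤ 1 := by
      rw [div_le_one hm0]
      exact_mod_cast hk
    have hmem : ∀ j ≤ k + 1, ((j : ℕ) : ℝ) / m ∈ Set.Icc (0 : ℝ) 1 := fun j hj =>
      ⟨by positivity, (hmono j (k + 1) hj).trans hkm1'⟩
    have e1 : ∀ s ∈ Set.Icc (0 : ℝ) 1, s ≤ (k : ℝ) / m →
        ev (splice ((k : ℝ) / m) Z (cact c κ η)) s = ev Z s := by
      intro s hs hs'
      rw [splice_ev _ _ _ hs, min_eq_left hs', max_eq_right hs', sub_self, add_zero]
    have e2 : ∀ s ∈ Set.Icc (0 : ℝ) 1, (k : ℝ) / m ≤ s →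
        ev (splice ((k : ℝ) / m) Z (cact c κ η)) s =
          ev Z ((k : ℝ) / m) + act c κ (ev η s - ev η ((k : ℝ) / m)) := by
      intro s hs hs'
      rw [splice_ev _ _ _ hs, min_eq_right hs', max_eq_left hs', cact_ev, cact_ev, act_sub]
    refine ⟨splice ((k : ℝ) / m) Z (cact c κ η),
      hspl _ ⟨hk0, hkm1⟩ _ hZ _ (cact_mem hrot hconj c κ hη), ?_, ?_⟩
    · intro j hj
      rcases Nat.lt_or_ge k j with hj' | hj'
      · obtain rfl : j = k + 1 := by omega
        rw [e2 _ (hmem _ le_rfl) (hmono _ _ (by omega))]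
        have e5 : ev Z ((k : ℝ) / m) + act c κ (ev η ((k + 1 : ℕ) / (m : ℝ)) - ev η ((k : ℝ) / m)) -
            poly η m h (k + 1) = ev Z ((k : ℝ) / m) - poly η m h k + act c κ (dd η m k) -
              Complex.I ^ h k * sn (dd η m k) := by
          unfold poly dd
          rw [Finset.sum_range_succ]
          ring
        rw [e5]
        exact ⟨hc1, hc2⟩
      · rw [e1 _ (hmem _ (by omega)) (hmono _ _ hj')]
        exact hZ1 j hj'
    · intro i hi s hs
      have hs1 : s ∈ Set.Icc (0 : ℝ) 1 :=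
        ⟨(hmem i (by omega)).1.trans hs.1, hs.2.trans (hmem _ (by omega)).2⟩
      rcases Nat.lt_or_ge i k with hi' | hi'
      · rw [e1 s hs1 (hs.2.trans (hmono _ _ (by omega))),
          e1 _ (hmem _ (by omega)) (hmono _ _ (by omega))]
        exact hZ2 i hi' s hs
      · obtain rfl : i = k := by omega
        rw [e2 s hs1 hs.1, e2 _ (hmem _ (by omega)) le_rfl, sub_self]
        have e6 : ev Z ((i : ℝ) / m) + act c κ (ev η s - ev η ((i : ℝ) / m)) -
            (ev Z ((i : ℝ) / m) + act c κ 0) = act c κ (ev η s - ev η ((i : ℝ) / m)) := by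
          have : act c κ 0 = 0 := by cases c <;> simp [act]
          rw [this]
          ring
        rw [e6, act_norm]
        exact hmod i hkm s hs

/-! ### truncated sums -/

/-- the sum of those `a i` for which the sum of the preceding ones is less than `x` -/
noncomputable def tr (a : ℕ → ℝ) (x : ℝ) (k : ℕ) : ℝ :=
  ∑ i ∈ Finset.range k, if ∑ j ∈ Finset.range i, a j < x then a i else 0

theorem tr_spec {a : ℕ → ℝ} (ha : ∀ i, 0 ≤ a i) {ρ x : ℝ} {m : ℕ} (har : ∀ i < m, a i ≤ ρ)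
    (hx : 0 < x) (k : ℕ) (hk : k ≤ m) :
    (∑ j ∈ Finset.range k, a j < x → tr a x k = ∑ j ∈ Finset.range k, a j) ∧
      (x ≤ ∑ j ∈ Finset.range k, a j → x ≤ tr a x k ∧ tr a x k ≤ x + ρ) := by
  induction k with
  | zero =>
    simp only [Finset.range_zero, Finset.sum_empty]
    refine ⟨fun _ => by simp [tr], fun h => absurd h (not_le.2 hx)⟩
  | succ k ih =>
    obtain ⟨h1, h2⟩ := ih (by omega)
    have e : tr a x (k + 1) = tr a x k + if ∑ j ∈ Finset.range k, a j < x then a k else 0 := by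
      unfold tr
      rw [Finset.sum_range_succ]
    rw [Finset.sum_range_succ, e]
    rcases lt_or_ge (∑ j ∈ Finset.range k, a j) x with h3 | h3
    · rw [if_pos h3, h1 h3]
      refine ⟨fun _ => rfl, fun h4 => ⟨h4, ?_⟩⟩
      have := har k (by omega)
      linarith
    · rw [if_neg (not_lt.2 h3), add_zero]
      refine ⟨fun h4 => ?_, fun _ => h2 h3⟩
      have := ha k
      linarith

end Pool.Agent.H986.EV
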