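import Pool.Agent.H986.EV.Cross

/-!
Random curves whose law is invariant under the symmetries of the square lattice and which never
cross themselves robustly: the increments over two consecutive intervals are not independent.
-/

set_option autoImplicit false

namespace Pool.Agent.H986.EV

open unitInterval MeasureTheory

/-- the increments of the curve over the time interval `[s, t]`, as a curve on `[0, 1]` -/
noncomputable def seg (s t : ℝ) (γ : C(unitInterval, ℂ)) : C(unitInterval, ℂ) where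
  toFun x := ev γ (s + (x : ℝ) * (t - s)) - ev γ s
  continuous_toFun := by fun_prop

theorem seg_apply (s t : ℝ) (γ : C(unitInterval, ℂ)) (x : unitInterval) :
    seg s t γ x = ev γ (s + (x : ℝ) * (t - s)) - ev γ s := rfl

theorem seg_ev {s t : ℝ} (γ : C(unitInterval, ℂ)) {x : ℝ} (hx : x ∈ Set.Icc (0 : ℝ) 1) :
    ev (seg s t γ) x = ev γ (s + x * (t - s)) - ev γ s := by
  rw [ev_of_mem _ hx]
  rfl

theorem ev_sub_eq (γ γ' : C(unitInterval, ℂ)) (x : ℝ) : ev (γ - γ') x = ev γ x - ev γ' x := rfl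

theorem seg_sub (s t : ℝ) (γ γ' : C(unitInterval, ℂ)) :
    seg s t γ - seg s t γ' = seg s t (γ - γ') := by
  ext x
  rw [ContinuousMap.sub_apply, seg_apply, seg_apply, seg_apply, ev_sub_eq, ev_sub_eq]
  ring

theorem seg_norm (s t : ℝ) (γ : C(unitInterval, ℂ)) : ‖seg s t γ‖ ≤ 2 * ‖γ‖ := by
  rw [ContinuousMap.norm_le _ (by positivity)]
  intro x
  rw [seg_apply]
  refine (norm_sub_le _ _).trans ?_
  have h1 := ev_sub_le γ 0 (s + (x : ℝ) * (t - s))
  have h2 := ev_sub_le γ 0 s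
  have e : ∀ y, ev 0 y = 0 := fun y => rfl
  rw [e, sub_zero, sub_zero] at h1 h2
  linarith

theorem seg_dist (s t : ℝ) (γ γ' : C(unitInterval, ℂ)) :
    ‖seg s t γ - seg s t γ'‖ ≤ 2 * ‖γ - γ'‖ := by
  rw [seg_sub]
  exact seg_norm _ _ _

@[fun_prop]
theorem seg_cont (s t : ℝ) : Continuous (seg s t) := by
  refine (LipschitzWith.of_dist_le_mul (K := 2) fun γ γ' => ?_).continuous
  rw [dist_eq_norm, dist_eq_norm]
  exact seg_dist s t γ γ'

theorem seg_zero (s t : ℝ) (γ : C(unitInterval, ℂ)) : seg s t γ 0 = 0 := by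
  rw [seg_apply]
  simp

theorem seg_rot (s t : ℝ) (γ : C(unitInterval, ℂ)) : seg s t (Complex.I • γ) =
    Complex.I • seg s t γ := by
  ext x
  change Complex.I * _ - Complex.I * _ = Complex.I * _
  rw [← mul_sub]
  rfl

theorem norm_rot (γ γ' : C(unitInterval, ℂ)) :
    ‖Complex.I • γ - Complex.I • γ'‖ = ‖γ - γ'‖ := by
  have e : Complex.I • γ - Complex.I • γ' = Complex.I • (γ - γ') := by
    ext x
    change Complex.I * _ - Complex.I * _ = Complex.I * _
    rw [← mul_sub]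
    rfl
  rw [e, norm_smul, Complex.norm_I, one_mul]

theorem norm_conj (γ γ' : C(unitInterval, ℂ)) : ‖star γ - star γ'‖ = ‖γ - γ'‖ := by
  have e : star γ - star γ' = star (γ - γ') := by
    ext x
    change star (γ x) - star (γ' x) = star (γ x - γ' x)
    rw [← star_sub]
  rw [e]
  exact norm_star (γ - γ')

theorem seg_star (s t : ℝ) (γ : C(unitInterval, ℂ)) : seg s t (star γ) = star (seg s t γ) := by
  ext x
  rw [ContinuousMap.star_apply, seg_apply, seg_apply, star_sub]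
  rfl

/-- the two parts of the increments -/
theorem seg_split {s t τ : ℝ} (γ : C(unitInterval, ℂ)) {x : ℝ}
    (hx : x ∈ Set.Icc (0 : ℝ) 1) :
    (x ≤ τ → 0 < τ → ev (seg s t γ) x = ev (seg s (s + τ * (t - s)) γ) (x / τ)) ∧
    (τ ≤ x → τ < 1 → ev (seg s t γ) x = ev (seg s (s + τ * (t - s)) γ) 1 +
      ev (seg (s + τ * (t - s)) t γ) ((x - τ) / (1 - τ))) := by
  constructor
  · intro h1 h2
    rw [seg_ev _ hx, seg_ev _ ⟨div_nonneg hx.1 h2.le, (div_le_one h2).2 h1⟩]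
    congr 2
    field_simp
    ring
  · intro h1 h2
    have h3 : 0 < 1 - τ := by linarith
    rw [seg_ev _ hx, seg_ev _ (by simp), seg_ev _ ⟨div_nonneg (by linarith) h3.le,
      (div_le_one h3).2 (by linarith [hx.2])⟩]
    have e1 : s + τ * (t - s) + (x - τ) / (1 - τ) * (t - (s + τ * (t - s))) = s + x * (t - s) := by
      field_simp
      ring
    have e2 : s + 1 * (s + τ * (t - s) - s) = s + τ * (t - s) := by ring
    rw [e1, e2]
    ring

/-- if the two parts are close to those of `η` and of `η'`, the whole is close to the splice -/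
theorem close_splice {s t τ : ℝ} (hτ : τ ∈ Set.Ioo (0 : ℝ) 1) (γ η η' : C(unitInterval, ℂ))
    (hη : η 0 = 0) {ε : ℝ}
    (h1 : ‖seg s (s + τ * (t - s)) γ - seg 0 τ η‖ < ε)
    (h2 : ‖seg (s + τ * (t - s)) t γ - seg τ 1 η'‖ < ε) :
    ‖seg s t γ - splice τ η η'‖ < 2 * ε := by
  have hε : 0 < ε := lt_of_le_of_lt (norm_nonneg _) h1
  have hη0 : ev η 0 = 0 := by rw [ev_of_mem η (by simp)]; exact hη
  have hτ' : τ ∈ Set.Icc (0 : ℝ) 1 := ⟨hτ.1.le, hτ.2.le⟩
  have hτ1 : 0 < 1 - τ := by linarith [hτ.2]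
  rw [ContinuousMap.norm_lt_iff _ (by positivity)]
  intro x
  rw [ContinuousMap.sub_apply]
  have ex : seg s t γ x = ev (seg s t γ) x := (ev_coe _ _).symm
  have es : splice τ η η' x = ev η (min x τ) + (ev η' (max x τ) - ev η' τ) := rfl
  rw [ex, es]
  have hx : (x : ℝ) ∈ Set.Icc (0 : ℝ) 1 := x.2
  rcases le_total (x : ℝ) τ with h | h
  · rw [(seg_split γ hx).1 h hτ.1, min_eq_left h, max_eq_right h, sub_self, add_zero]
    have e : ev η x = ev (seg 0 τ η) (x / τ) := by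
      rw [seg_ev _ ⟨div_nonneg hx.1 hτ.1.le, (div_le_one hτ.1).2 h⟩, hη0, sub_zero]
      congr 1
      have := hτ.1.ne'
      field_simp
      ring
    rw [e]
    refine lt_of_le_of_lt (ev_sub_le _ _ _) (h1.trans ?_)
    linarith
  · rw [(seg_split γ hx).2 h hτ.2, min_eq_right h, max_eq_left h]
    have e : ev η τ = ev (seg 0 τ η) 1 := by
      rw [seg_ev _ (by simp), hη0, sub_zero]
      congr 1
      ring
    have e' : ev η' x - ev η' τ = ev (seg τ 1 η') ((x - τ) / (1 - τ)) := by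
      rw [seg_ev _ ⟨div_nonneg (by linarith) hτ1.le, (div_le_one hτ1).2 (by linarith [hx.2])⟩]
      congr 2
      field_simp
      ring
    rw [e, e']
    have e3 : ∀ a b c d : ℂ, a + b - (c + d) = (a - c) + (b - d) := fun a b c d => by ring
    rw [e3]
    refine lt_of_le_of_lt (norm_add_le _ _) ?_
    have := lt_of_le_of_lt (ev_sub_le _ _ 1) h1
    have := lt_of_le_of_lt (ev_sub_le _ _ ((x - τ) / (1 - τ))) h2
    linarith

variable [MeasurableSpace C(unitInterval, ℂ)]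

theorem abstract (ν : Measure C(unitInterval, ℂ))
    (hrot : ∀ E : Set C(unitInterval, ℂ), IsOpen E → ν {γ | Complex.I • γ ∈ E} = ν E)
    (hconj : ∀ E : Set C(unitInterval, ℂ), IsOpen E → ν {γ | star γ ∈ E} = ν E)
    {s t : ℝ} (hst : s < t)
    (hcross : ∀ (Z : C(unitInterval, ℂ)) (ε : ℝ), (∀ ξ : C(unitInterval, ℂ), ‖ξ - Z‖ < ε →
      ¬ Function.Injective ξ) → ν {γ | ‖seg s t γ - Z‖ < ε} = 0)
    (hne : ν {γ | seg s t γ ≠ 0} ≠ 0) :
    ∃ r ∈ Set.Ioo s t, ∃ (η₁ η₂ : C(unitInterval, ℂ)) (ε : ℝ), 0 < ε ∧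
      (∀ ε' : ℝ, 0 < ε' → 0 < ν {γ | ‖seg s r γ - η₁‖ < ε'}) ∧
      (∀ ε' : ℝ, 0 < ε' → 0 < ν {γ | ‖seg r t γ - η₂‖ < ε'}) ∧
      ν {γ | ‖seg s r γ - η₁‖ < ε ∧ ‖seg r t γ - η₂‖ < ε} = 0 := by
  by_contra hcon
  push Not at hcon
  let S : Set C(unitInterval, ℂ) := {η | ∀ ε : ℝ, 0 < ε → 0 < ν {γ | ‖seg s t γ - η‖ < ε}}
  have hopen : ∀ (η : C(unitInterval, ℂ)) (ε : ℝ), IsOpen {γ | ‖seg s t γ - η‖ < ε} := fun η ε =>
    isOpen_lt (by fun_prop) continuous_const
  have hS0 : ∀ γ ∈ S, γ 0 = 0 := by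
    intro η hη
    by_contra hc
    have h1 := hη ‖η 0‖ (norm_pos_iff.2 hc)
    have h2 : {γ | ‖seg s t γ - η‖ < ‖η 0‖} = ∅ := by
      ext γ
      simp only [Set.mem_ofPred_eq, Set.mem_empty_iff_false, iff_false, not_lt]
      have := ContinuousMap.norm_coe_le_norm (seg s t γ - η) 0
      rwa [ContinuousMap.sub_apply, seg_zero, zero_sub, norm_neg] at this
    rw [h2] at h1
    simp at h1
  have hSrot : ∀ γ ∈ S, Complex.I • γ ∈ S := by
    intro η hη ε hε
    have h1 := hη ε hε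
    rw [← hrot _ (hopen _ _)]
    have e : {γ | Complex.I • γ ∈ {γ | ‖seg s t γ - Complex.I • η‖ < ε}} =
        {γ | ‖seg s t γ - η‖ < ε} := by
      ext γ
      simp only [Set.mem_ofPred_eq]
      rw [seg_rot, norm_rot]
    rw [e]
    exact h1
  have hSconj : ∀ γ ∈ S, star γ ∈ S := by
    intro η hη ε hε
    have h1 := hη ε hε
    rw [← hconj _ (hopen _ _)]
    have e : {γ | star γ ∈ {γ | ‖seg s t γ - star η‖ < ε}} = {γ | ‖seg s t γ - η‖ < ε} := by
      ext γ
      simp only [Set.mem_ofPred_eq]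
      rw [seg_star, norm_conj]
    rw [e]
    exact h1
  have hSspl : ∀ τ ∈ Set.Ioo (0 : ℝ) 1, ∀ γ ∈ S, ∀ γ' ∈ S, splice τ γ γ' ∈ S := by
    intro τ hτ η hη η' hη' ε hε
    have hr : s + τ * (t - s) ∈ Set.Ioo s t := by
      constructor <;> nlinarith [hτ.1, hτ.2]
    have hτ' : τ ∈ Set.Icc (0 : ℝ) 1 := ⟨hτ.1.le, hτ.2.le⟩
    have h1 : ∀ ε' : ℝ, 0 < ε' → 0 < ν {γ | ‖seg s (s + τ * (t - s)) γ - seg 0 τ η‖ < ε'} := by
      intro ε' hε'
      refine lt_of_lt_of_le (hη (ε' / 2) (by linarith)) (measure_mono ?_)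
      intro γ hγ
      simp only [Set.mem_ofPred_eq] at hγ ⊢
      have e : seg s (s + τ * (t - s)) γ = seg 0 τ (seg s t γ) := by
        ext x
        have hx : (0 : ℝ) + x * (τ - 0) ∈ Set.Icc (0 : ℝ) 1 :=
          ⟨by nlinarith [x.2.1, hτ.1], by nlinarith [x.2.1, x.2.2, hτ.1, hτ.2]⟩
        rw [seg_apply, seg_apply, seg_ev _ hx, seg_ev _ (by simp)]
        have e1 : s + (x : ℝ) * (s + τ * (t - s) - s) = s + (0 + x * (τ - 0)) * (t - s) := by ring
        rw [e1]
        simp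
      rw [e]
      refine lt_of_le_of_lt (seg_dist _ _ _ _) ?_
      linarith
    have h2 : ∀ ε' : ℝ, 0 < ε' → 0 < ν {γ | ‖seg (s + τ * (t - s)) t γ - seg τ 1 η'‖ < ε'} := by
      intro ε' hε'
      refine lt_of_lt_of_le (hη' (ε' / 2) (by linarith)) (measure_mono ?_)
      intro γ hγ
      simp only [Set.mem_ofPred_eq] at hγ ⊢
      have e : seg (s + τ * (t - s)) t γ = seg τ 1 (seg s t γ) := by
        ext x
        have hx : τ + x * (1 - τ) ∈ Set.Icc (0 : ℝ) 1 :=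
          ⟨by nlinarith [x.2.1, hτ.1, hτ.2], by nlinarith [x.2.1, x.2.2, hτ.1, hτ.2]⟩
        rw [seg_apply, seg_apply, seg_ev _ hx, seg_ev _ hτ']
        have e1 : s + τ * (t - s) + (x : ℝ) * (t - (s + τ * (t - s))) =
          s + (τ + x * (1 - τ)) * (t - s) := by ring
        rw [e1]
        ring
      rw [e]
      refine lt_of_le_of_lt (seg_dist _ _ _ _) ?_
      linarith
    have h3 := hcon _ hr (seg 0 τ η) (seg τ 1 η') (ε / 2) (by linarith) h1 h2
    refine lt_of_lt_of_le (pos_iff_ne_zero.2 h3) (measure_mono ?_)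
    rintro γ ⟨h4, h5⟩
    have := close_splice hτ γ η η' (hS0 η hη) h4 h5
    simp only [Set.mem_ofPred_eq]
    linarith
  -- a nonzero element
  obtain ⟨γ₀, hγ₀, hpos⟩ := exists_mem_forall_mem_nhdsWithin_pos_measure hne
  have hη : seg s t γ₀ ∈ S := by
    intro ε hε
    apply hpos
    apply mem_nhdsWithin_of_mem_nhds
    apply (hopen _ _).mem_nhds
    simp [hε]
  obtain ⟨Z, hZ, ε, hε, hZε⟩ := core hS0 hSrot hSconj hSspl hη hγ₀
  exact (hZ ε hε).ne' (hcross Z ε hZε)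

end Pool.Agent.H986.EV
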