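import Pool.Graph.R_seed8.Helper133.BULib

/-!
The Poincaré–Miranda theorem for a rectangle, from the Borsuk–Ulam theorem (library).
-/

set_option autoImplicit false

namespace Pool.Agent.H986.EV

open Pool.Agent.Helper133.BU

/-- clamping to `[-1, 1]` -/
noncomputable def cp (x : ℝ) : ℝ := max (-1) (min 1 x)

theorem cp_mem (x : ℝ) : cp x ∈ Set.Icc (-1 : ℝ) 1 := by
  unfold cp
  exact ⟨le_max_left _ _, max_le (by norm_num) (min_le_left _ _)⟩

theorem cp_one {x : ℝ} (h : 1 ≤ x) : cp x = 1 := by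
  unfold cp
  rw [min_eq_left h]
  norm_num

theorem cp_neg_one {x : ℝ} (h : x ≤ -1) : cp x = -1 := by
  unfold cp
  rw [min_eq_right (by linarith), max_eq_left h]

@[fun_prop]
theorem cp_cont : Continuous cp := by
  unfold cp
  fun_prop

/-- **Poincaré–Miranda** in the square `[-1, 1]²`, strict signs on the sides. -/
theorem pm_square (F G : ℝ × ℝ → ℝ) (hF : Continuous F) (hG : Continuous G)
    (h1 : ∀ v ∈ Set.Icc (-1 : ℝ) 1, F (-1, v) < 0) (h2 : ∀ v ∈ Set.Icc (-1 : ℝ) 1, 0 < F (1, v))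
    (h3 : ∀ u ∈ Set.Icc (-1 : ℝ) 1, G (u, -1) < 0) (h4 : ∀ u ∈ Set.Icc (-1 : ℝ) 1, 0 < G (u, 1)) :
    ∃ p ∈ Set.Icc (-1 : ℝ) 1 ×ˢ Set.Icc (-1 : ℝ) 1, F p = 0 ∧ G p = 0 := by
  classical
  let wp : (Fin 3 → ℝ) → ℝ := fun p => min 1 (2 * max (p 2) 0)
  let wm : (Fin 3 → ℝ) → ℝ := fun p => min 1 (2 * max (-p 2) 0)
  let q : (Fin 3 → ℝ) → ℝ × ℝ := fun p => (cp (4 * p 0), cp (4 * p 1))
  let q' : (Fin 3 → ℝ) → ℝ × ℝ := fun p => (cp (4 * -p 0), cp (4 * -p 1))
  let f : (Fin 3 → ℝ) → (Fin 2 → ℝ) := fun p =>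
    ![(1 - wp p - wm p) * p 0 + wp p * F (q p) - wm p * F (q' p),
      (1 - wp p - wm p) * p 1 + wp p * G (q p) - wm p * G (q' p)]
  have hfc : Continuous f := by
    refine continuous_pi fun i => ?_
    fin_cases i
    · change Continuous fun p => (1 - wp p - wm p) * p 0 + wp p * F (q p) - wm p * F (q' p)
      fun_prop
    · change Continuous fun p => (1 - wp p - wm p) * p 1 + wp p * G (q p) - wm p * G (q' p)
      fun_prop
  have hodd : ∀ p, f (-p) = -f p := by
    intro p
    have e1 : wp (-p) = wm p := by simp [wp, wm]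
    have e2 : wm (-p) = wp p := by simp [wp, wm]
    have e3 : q (-p) = q' p := by simp [q, q']
    have e4 : q' (-p) = q p := by simp [q, q']
    funext i
    fin_cases i
    · change (1 - wp (-p) - wm (-p)) * (-p) 0 + wp (-p) * F (q (-p)) - wm (-p) * F (q' (-p)) =
        -((1 - wp p - wm p) * p 0 + wp p * F (q p) - wm p * F (q' p))
      rw [e1, e2, e3, e4, Pi.neg_apply]
      ring
    · change (1 - wp (-p) - wm (-p)) * (-p) 1 + wp (-p) * G (q (-p)) - wm (-p) * G (q' (-p)) =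
        -((1 - wp p - wm p) * p 1 + wp p * G (q p) - wm p * G (q' p))
      rw [e1, e2, e3, e4, Pi.neg_apply]
      ring
  obtain ⟨x, hx, hfx⟩ := borsuk_ulam 2 f hfc hodd
  -- a zero in the upper half
  obtain ⟨p, hp, hfp, hp2⟩ : ∃ p : Fin 3 → ℝ, |p 0| + |p 1| + |p 2| = 1 ∧ f p = 0 ∧ 0 ≤ p 2 := by
    have hs : |x 0| + |x 1| + |x 2| = 1 := by
      have : ∑ i, |x i| = 1 := hx
      rw [Fin.sum_univ_three] at this
      exact this
    rcases le_total 0 (x 2) with h | h
    · exact ⟨x, hs, hfx, h⟩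
    · refine ⟨-x, by simpa using hs, by rw [hodd, hfx, neg_zero], by simpa using h⟩
  have hwm : wm p = 0 := by
    simp only [wm]
    rw [max_eq_right (by linarith)]
    norm_num
  have f0 : (1 - wp p) * p 0 + wp p * F (q p) = 0 := by
    have := congrFun hfp 0
    change (1 - wp p - wm p) * p 0 + wp p * F (q p) - wm p * F (q' p) = 0 at this
    rw [hwm] at this
    linarith
  have f1 : (1 - wp p) * p 1 + wp p * G (q p) = 0 := by
    have := congrFun hfp 1
    change (1 - wp p - wm p) * p 1 + wp p * G (q p) - wm p * G (q' p) = 0 at this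
    rw [hwm] at this
    linarith
  have hwp : wp p = min 1 (2 * p 2) := by
    simp only [wp]
    rw [max_eq_left hp2]
  rcases le_total (1 / 2) (p 2) with h | h
  · have hw1 : wp p = 1 := by rw [hwp, min_eq_left (by linarith)]
    rw [hw1] at f0 f1
    exact ⟨q p, ⟨cp_mem _, cp_mem _⟩, by linarith, by linarith⟩
  rcases eq_or_lt_of_le h with h | h
  · have hw1 : wp p = 1 := by rw [hwp, h]; norm_num
    rw [hw1] at f0 f1
    exact ⟨q p, ⟨cp_mem _, cp_mem _⟩, by linarith, by linarith⟩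
  exfalso
  have hw2 : wp p = 2 * p 2 := by rw [hwp, min_eq_right (by linarith)]
  have hw3 : 0 ≤ wp p := by rw [hw2]; linarith
  have hw4 : 0 < 1 - wp p := by rw [hw2]; linarith
  have habs : 1 / 2 < |p 0| + |p 1| := by
    rw [abs_of_nonneg hp2] at hp
    linarith
  have hor : 1 / 4 < |p 0| ∨ 1 / 4 < |p 1| := by
    by_contra hc
    push Not at hc
    linarith [hc.1, hc.2]
  rcases hor with h5 | h5
  · rcases lt_abs.1 h5 with h6 | h6
    · have e : q p = (1, cp (4 * p 1)) := by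
        simp only [q]
        rw [cp_one (by linarith)]
      rw [e] at f0
      have := h2 _ (cp_mem (4 * p 1))
      have h7 : 0 < (1 - wp p) * p 0 := mul_pos hw4 (by linarith)
      have h8 : 0 ≤ wp p * F (1, cp (4 * p 1)) := mul_nonneg hw3 this.le
      linarith
    · have e : q p = (-1, cp (4 * p 1)) := by
        simp only [q]
        rw [cp_neg_one (by linarith)]
      rw [e] at f0
      have := h1 _ (cp_mem (4 * p 1))
      have h7 : (1 - wp p) * p 0 < 0 := mul_neg_of_pos_of_neg hw4 (by linarith)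
      have h8 : wp p * F (-1, cp (4 * p 1)) ≤ 0 := mul_nonpos_of_nonneg_of_nonpos hw3 this.le
      linarith
  · rcases lt_abs.1 h5 with h6 | h6
    · have e : q p = (cp (4 * p 0), 1) := by
        simp only [q]
        rw [cp_one (x := 4 * p 1) (by linarith)]
      rw [e] at f1
      have := h4 _ (cp_mem (4 * p 0))
      have h7 : 0 < (1 - wp p) * p 1 := mul_pos hw4 (by linarith)
      have h8 : 0 ≤ wp p * G (cp (4 * p 0), 1) := mul_nonneg hw3 this.le
      linarith
    · have e : q p = (cp (4 * p 0), -1) := by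
        simp only [q]
        rw [cp_neg_one (x := 4 * p 1) (by linarith)]
      rw [e] at f1
      have := h3 _ (cp_mem (4 * p 0))
      have h7 : (1 - wp p) * p 1 < 0 := mul_neg_of_pos_of_neg hw4 (by linarith)
      have h8 : wp p * G (cp (4 * p 0), -1) ≤ 0 := mul_nonpos_of_nonneg_of_nonpos hw3 this.le
      linarith

/-- **Crossing lemma.** The curve `ξ` from `[a, b]`, `[c, d]`: if on `[a, b]` it goes from the left
to the right of everything which it visits in `[c, d]`, and in `[c, d]` from above to below of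
everything visited in `[a, b]`, then it takes a common value on the two intervals. -/
theorem crossing (ξ : ℝ → ℂ) (hξ : Continuous ξ) (a b c d : ℝ) (hab : a ≤ b) (hcd : c ≤ d)
    (h1 : ∀ t ∈ Set.Icc c d, (ξ a).re < (ξ t).re) (h2 : ∀ t ∈ Set.Icc c d, (ξ t).re < (ξ b).re)
    (h3 : ∀ s ∈ Set.Icc a b, (ξ s).im < (ξ c).im) (h4 : ∀ s ∈ Set.Icc a b, (ξ d).im < (ξ s).im) :
    ∃ s ∈ Set.Icc a b, ∃ t ∈ Set.Icc c d, ξ s = ξ t := by
  let σ : ℝ → ℝ := fun u => a + (b - a) * ((u + 1) / 2)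
  let τ : ℝ → ℝ := fun v => c + (d - c) * ((v + 1) / 2)
  have hσ : ∀ u ∈ Set.Icc (-1 : ℝ) 1, σ u ∈ Set.Icc a b := by
    intro u hu
    simp only [σ, Set.mem_Icc] at hu ⊢
    constructor <;> nlinarith [hu.1, hu.2]
  have hτ : ∀ u ∈ Set.Icc (-1 : ℝ) 1, τ u ∈ Set.Icc c d := by
    intro u hu
    simp only [τ, Set.mem_Icc] at hu ⊢
    constructor <;> nlinarith [hu.1, hu.2]
  have σm : σ (-1) = a := by simp [σ]
  have σp : σ 1 = b := by simp [σ]
  have τm : τ (-1) = c := by simp [τ]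
  have τp : τ 1 = d := by simp [τ]
  have hσc : Continuous σ := by fun_prop
  have hτc : Continuous τ := by fun_prop
  obtain ⟨⟨u, v⟩, ⟨hu, hv⟩, e1, e2⟩ := pm_square
    (fun p => (ξ (σ p.1)).re - (ξ (τ p.2)).re) (fun p => (ξ (σ p.1)).im - (ξ (τ p.2)).im)
    (by fun_prop) (by fun_prop)
    (fun v hv => by simp only [σm]; linarith [h1 _ (hτ v hv)])
    (fun v hv => by simp only [σp]; linarith [h2 _ (hτ v hv)])
    (fun u hu => by simp only [τm]; linarith [h3 _ (hσ u hu)])
    (fun u hu => by simp only [τp]; linarith [h4 _ (hσ u hu)])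
  refine ⟨σ u, hσ u hu, τ v, hτ v hv, ?_⟩
  apply Complex.ext
  · simpa [sub_eq_zero] using e1
  · simpa [sub_eq_zero] using e2

end Pool.Agent.H986.EV
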